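import Mathlib
import Pool.Agent.H.MP_2184e2_an.C

open Set Filter Topology Complex
open Pool.Agent.H.MP_2184e2_an

namespace Pool.Agent.Results.MP_2184e2_an.Finite

variable {P : Type} [NormedAddCommGroup P] [NormedSpace ℝ P] {n : ℕ}

/-- The image of `Θ` is generic. -/
def Gen (Θ : P → Fin n → ℂ) : Prop := ∀ p v, ∃ a b, v = fderiv ℝ Θ p a + I • fderiv ℝ Θ p b

/-- The differential of `g` is complex linear on the complex tangent spaces of the image of `Θ`. -/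
def IsCR (Θ g : P → Fin n → ℂ) : Prop :=
  ∀ p a a', fderiv ℝ Θ p a' = I • fderiv ℝ Θ p a → fderiv ℝ g p a' = I • fderiv ℝ g p a

theorem result (k : ℕ) : ∃ (Θ₁ : (Fin 3 → ℂ) × (Fin 3 → ℝ) → Fin 6 → ℂ)
    (Θ₂ : (Fin 5 → ℂ) × (Fin 1 → ℝ) → Fin 6 → ℂ) (f : (Fin 6 → ℂ) → Fin 6 → ℂ),
    CRL Θ₁ ∧ CRL Θ₂ ∧ Gen Θ₁ ∧ Gen Θ₂ ∧ MapsTo f (range Θ₁) (range Θ₂) ∧
    ContDiff ℝ (k + 1 : ℕ) (f ∘ Θ₁) ∧ IsCR Θ₁ (f ∘ Θ₁) ∧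
    ¬ ∃ U ∈ 𝓝 (Θ₁ 0), ∃ F : (Fin 6 → ℂ) → Fin 6 → ℂ, DifferentiableOn ℂ F U ∧
      ∀ p, Θ₁ p ∈ U → F (Θ₁ p) = f (Θ₁ p) :=
  ⟨_, _, f (3 * (k + 1) + 1), crl₁ _, crl₂, gen (aφ₁ _) σ₁ b₁.2, gen aφ₂ σ₂ b₂.2, maps _,
    smooth (k + 1), cr (3 * k + 2), fun ⟨_, hU, _, hF, h⟩ => noext hU hF h⟩

end Pool.Agent.Results.MP_2184e2_an.Finite
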