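import Mathlib
import Pool.Agent.H.MP_2184e2_an.B

open Set Filter Topology Complex
open Pool.Agent.H.MP_2184e2_an

namespace Pool.Agent.Results.MP_2184e2_an.Global

theorem result : ∃ (n : ℕ) (Θ₁ Θ₂ : (Fin 1 → ℂ) × (Fin 1 → ℝ) → Fin n → ℂ)
    (f : (Fin n → ℂ) → Fin n → ℂ), CRL Θ₁ ∧ CRL Θ₂ ∧ MapsTo f (range Θ₁) (range Θ₂) ∧
    AnalyticOnNhd ℝ (f ∘ Θ₁) univ ∧
    (∀ p a a', fderiv ℝ Θ₁ p a' = I • fderiv ℝ Θ₁ p a →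
      fderiv ℝ (f ∘ Θ₁) p a' = I • fderiv ℝ (f ∘ Θ₁) p a) ∧
    ¬ ∃ (U : Set (Fin n → ℂ)) (F : (Fin n → ℂ) → Fin n → ℂ), IsOpen U ∧ range Θ₁ ⊆ U ∧
      AnalyticOnNhd ℂ F U ∧ ∀ w ∈ range Θ₁, F w = f w := by
  have c₂ := crl₀ π₂.analyticAt (fun p => by rw [π₂.fderiv]; exact iπ₂) e₂
  refine ⟨4, π₁ ∘ θ φ₀, π₂ ∘ θ φ₀, f₀, crl₀ aπ₁ iπ₁ e₁, c₂, ?_, fπ ▸ c₂.an, fun p a a' h => ?_,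
    fun ⟨U, F, _, hU, hF, h⟩ => noext₀ hF hU fun p => (h _ ⟨p, rfl⟩).trans (congrFun fπ p)⟩
  · rintro _ ⟨p, rfl⟩
    exact ⟨p, (congrFun fπ p).symm⟩
  · rw [dΘ aφ₀ aπ₁, dΘ aφ₀ aπ₁, ← map_smul, (iπ₁ p).eq_iff] at h
    rw [fπ, dΘ aφ₀ π₂.analyticAt, dΘ aφ₀ π₂.analyticAt, h, map_smul]

end Pool.Agent.Results.MP_2184e2_an.Global
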